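import Mathlib

namespace Pool.Agent.Results.MP_773328_co.Full

open PowerSeries Finset Nat

/-- `F(z) = ∑ (-1)^k z^(2k+1) / (k! (k+1)! (2k+1))`. -/
noncomputable def F : ℚ⟦X⟧ :=
  mk fun n => if n % 2 = 1 then (-1) ^ (n / 2) / ((n / 2)! * (n / 2 + 1)! * n) else 0

/-- `a_n = n! [z^n] (-log (1 - F))`, where `-log (1 - F) = ∑_{m ≥ 1} F^m / m`; the terms with
`m > n` do not contribute to the coefficient of `z^n`. -/
noncomputable def a (n : ℕ) : ℚ := n ! * ∑ m ∈ Icc 1 n, coeff n (F ^ m) / m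

def f (n : ℕ) : ℤ := if n % 2 = 1 then (-1) ^ (n / 2) * catalan (n / 2) else 0

theorem hf (n : ℕ) : n ! * coeff n F = f n := by
  rw [F, coeff_mk, f]
  split_ifs with h
  · obtain ⟨k, rfl⟩ : ∃ k, n = 2 * k + 1 := ⟨n / 2, by omega⟩
    have a := congrArg (Nat.cast : ℕ → ℚ) (succ_mul_catalan_eq_centralBinom k)
    have b := congrArg (Nat.cast : ℕ → ℚ) (choose_mul_factorial_mul_factorial (n := 2 * k) (k := k) (by omega))
    rw [show 2 * k - k = k by omega, ← centralBinom_eq_two_mul_choose] at b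
    rw [show (2 * k + 1) / 2 = k by omega, factorial_succ, factorial_succ]
    push_cast at a b ⊢
    rw [← b, ← a]
    field_simp
  · simp

/-- The integers `n! [z^n] F^m / m!`. -/
def g : ℕ → ℕ → ℤ
  | 0, n => if n = 0 then 1 else 0
  | _ + 1, 0 => 0
  | m + 1, n + 1 => ∑ p ∈ antidiagonal n, n.choose p.1 * g m p.1 * f (p.2 + 1)

theorem hg (m : ℕ) : ∀ n, n ! * coeff n (F ^ m) = m ! * g m n := by
  induction m with
  | zero => intro n; cases n <;> simp [g, coeff_one]
  | succ m ih =>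
    rintro (_ | n)
    · simp [g, F]
    have a := congrArg (coeff n) (Derivation.leibniz_pow (d⁄dX ℚ) F (m + 1))
    rw [coeff_derivative, Nat.add_sub_cancel, smul_eq_mul, map_nsmul, coeff_mul, nsmul_eq_mul] at a
    rw [factorial_succ, factorial_succ, g]
    push_cast at a ⊢
    rw [mul_right_comm, mul_comm (n + 1 : ℚ), a, mul_assoc, mul_assoc, sum_mul, mul_sum (a := (m ! : ℚ))]
    congr 1
    refine sum_congr rfl fun p h => ?_
    rw [coeff_derivative, ← hf, factorial_succ, ← mem_antidiagonal.1 h,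
      ← add_choose_mul_factorial_mul_factorial, add_comm p.1, choose_symm_add]
    push_cast
    linear_combination (p.2 + p.1).choose p.1 * (p.2 + 1) * p.2 ! * coeff (p.2 + 1) F * ih p.1

theorem sym (n : ℕ) (u : ℕ × ℕ → ZMod 2)
    (h : ∀ p ∈ antidiagonal n, p.1 ≠ p.2 → u p + u p.swap = 0) :
    ∑ p ∈ antidiagonal n, u p = if n % 2 = 0 then u (n / 2, n / 2) else 0 := by
  rw [← sum_filter_add_sum_filter_not _ fun p => p.1 = p.2, sum_involution (s := {p ∈ antidiagonal n | ¬ p.1 = p.2})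
    (fun p _ => p.swap) (fun p x => h p (mem_filter.1 x).1 (mem_filter.1 x).2)
    (fun p x _ e => (mem_filter.1 x).2 (congrArg Prod.snd e))
    (fun p x => by simp at x ⊢; omega) fun _ _ => rfl, add_zero]
  split_ifs with e
  · exact sum_eq_single_of_mem _ (by simp; omega) fun p x y => (y (by ext <;> simp at x ⊢ <;> omega)).elim
  · exact sum_eq_zero fun p x => by simp at x; omega

theorem cat (n : ℕ) : Odd (catalan n) ↔ ∃ j, n + 1 = 2 ^ j := by
  induction n using Nat.strong_induction_on with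
  | _ n ih =>
  rcases n with _ | n
  · exact iff_of_true (by simp) ⟨0, rfl⟩
  rw [← ZMod.natCast_eq_one_iff_odd, catalan_succ', cast_sum, sym n _ fun p _ _ => by
    simp [mul_comm, CharTwo.add_self_eq_zero]]
  split_ifs with e
  · rw [ZMod.natCast_eq_one_iff_odd, Nat.odd_mul, and_self, ih _ (by omega)]
    refine ⟨fun ⟨j, h⟩ => ⟨j + 1, by omega⟩, fun ⟨j, h⟩ => ?_⟩
    rcases j with _ | j
    exacts [by omega, ⟨j, by omega⟩]
  · refine iff_of_false zero_ne_one fun ⟨j, h⟩ => ?_
    rcases j with _ | j <;> omega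

theorem g1 (n : ℕ) : g 1 n = f n := by
  have := hg 1 n
  rw [pow_one, hf] at this
  exact_mod_cast (by simpa using this.symm : (g 1 n : ℚ) = f n)

theorem g2 (n : ℕ) (hn : 1 ≤ n) : (g 2 (n + 2) : ZMod 2) = 0 := by
  rw [g, Finset.Nat.antidiagonal_succ, sum_cons, sum_map]
  simp only [g1, show f 0 = 0 by simp [f], Function.Embedding.prodMap, Function.Embedding.coeFn_mk,
    Prod.map_fst, Prod.map_snd, Function.Embedding.refl_apply, succ_eq_add_one]
  push_cast
  rw [sym]
  · split_ifs with e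
    swap
    · simp
    obtain ⟨k, rfl⟩ : ∃ k, n = 2 * k := ⟨n / 2, by omega⟩
    rw [show 2 * k / 2 = k by omega]
    by_cases o : (k + 1) % 2 = 1
    swap
    · simp [f, o]
    have c := succ_mul_catalan_eq_centralBinom (k + 1)
    rw [centralBinom_eq_two_mul_choose, show 2 * (k + 1) = 2 * k + 1 + 1 by ring, choose_succ_succ',
      ← choose_symm_half] at c
    have : Even ((2 * k + 1).choose (k + 1)) := by
      by_contra q
      rw [not_even_iff_odd] at q
      obtain ⟨t, rfl⟩ : ∃ t, k = 2 * t := ⟨k / 2, by omega⟩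
      have d : (t + 1) * catalan (2 * t + 1) = (2 * (2 * t) + 1).choose (2 * t + 1) := by linarith
      rw [← d, Nat.odd_mul, cat] at q
      obtain ⟨⟨s, q⟩, _ | _ | j, r⟩ := q <;> omega
    simp [(ZMod.natCast_eq_zero_iff_even).2 this]
  · rintro ⟨i, j⟩ p -
    obtain rfl := mem_antidiagonal.1 p
    by_cases o : (i + 1) % 2 = 1 ∧ (j + 1) % 2 = 1
    swap
    · rcases not_and_or.1 o with o | o <;> simp [f, o]
    have c := congrArg (Nat.cast : ℕ → ZMod 2) (add_one_mul_choose_eq (i + j + 1) i)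
    have d : (i + j + 1).choose (j + 1) = (i + j + 1).choose i :=
      (choose_symm_add (a := i) (b := j + 1)).symm
    have e : ∀ t : ℕ, t % 2 = 0 → (t : ZMod 2) = 0 := fun t h =>
      ZMod.natCast_eq_zero_iff_even.2 (even_iff.2 h)
    rw [choose_succ_succ', cast_mul, e _ (by omega)] at c
    push_cast at c
    rw [e i (by omega)] at c
    simp only [Prod.fst_swap, Prod.snd_swap, d]
    linear_combination -c * f (i + 1) * f (j + 1)

theorem result : ∀ n ≥ 3, ∃ z : ℤ, a n = z ∧ (Odd z ↔ ∃ j, n + 1 = 2 ^ j) := by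
  intro n hn
  refine ⟨∑ m ∈ Icc 1 n, (m - 1)! * g m n, ?_, ?_⟩
  · rw [a, mul_sum]
    push_cast
    refine sum_congr rfl fun m h => ?_
    obtain ⟨m, rfl⟩ : ∃ k, m = k + 1 := ⟨m - 1, by simp at h; omega⟩
    rw [← mul_div_assoc, hg, factorial_succ]
    push_cast
    field_simp
  · rw [← ZMod.intCast_eq_one_iff_odd]
    push_cast
    rw [sum_eq_single_of_mem 1 (by simp; omega) fun m h e => ?_, g1]
    · simp only [tsub_self, factorial_zero, cast_one, one_mul, ZMod.intCast_eq_one_iff_odd, f]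
      split_ifs with o
      · rw [Int.odd_mul, Int.odd_coe_nat, cat, and_iff_right (Odd.pow (by decide))]
        refine ⟨fun ⟨j, h⟩ => ⟨j + 1, by omega⟩, fun ⟨j, h⟩ => ?_⟩
        rcases j with _ | j
        exacts [by omega, ⟨j, by omega⟩]
      · refine iff_of_false (by decide) fun ⟨j, h⟩ => ?_
        rcases j with _ | j <;> omega
    · by_cases q : m = 2
      · obtain ⟨k, rfl⟩ : ∃ k, n = k + 2 := ⟨n - 2, by omega⟩
        rw [q, g2 k (by omega), mul_zero]
      · rw [(ZMod.natCast_eq_zero_iff _ _).2 (dvd_factorial (by decide) (by simp at h; omega)), zero_mul]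

end Pool.Agent.Results.MP_773328_co.Full
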